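import Mathlib
import Pool.Agent.K1H49.BinPart.Comp

/-!
# Alkauskas's question on the binary partition function

For every `h` with `8 ∤ h` there are infinitely many `n` such that `h` divides the number of
binary partitions of `n`.
-/

/-- For every natural number `h` not divisible by `8` there are infinitely many `n` such that `h`
divides the number `b₂(n)` of partitions of `n` all of whose parts are powers of two. -/
theorem Pool.Agent.Results.MP_6550b3_nt.AllModuli.result :
    ∀ h : ℕ, ¬ 8 ∣ h →
      {n : ℕ | h ∣ Nat.card {π : Nat.Partition n // ∀ x ∈ π.parts, ∃ k : ℕ, x = 2 ^ k}}.Infinite := by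
  intro h hh
  rw [Set.infinite_iff_exists_gt]
  intro B
  obtain ⟨n, hn, hdvd⟩ := Pool.Agent.K1H49.BinPart.main_dvd h hh B
  exact ⟨n, hdvd, hn⟩
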